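import Pool.Agent.Q33.Harm.Choose

/-!
For every `m` and every prime `p`, `p⁴` divides the numerator of
`S_m(p-1) = ∑_{k<p} C(p-1,k)² C(p-1+k,k)² / k^(2m+1)` if and only if `p` is odd and
(`p - 1` does not divide `2m+4` or `p` divides `2m+7`).

Proof.  `C(p-1,k)² C(p-1+k,k)² = (p²/k²) (1-p/k)² ∏_{i<k} (1-p²/i²)²`, so
`S_m(p-1) ≡ p² (H_{2m+3} - 2 p H_{2m+4}) (mod p⁴)` in the `p`-adic integers, where
`H_s = ∑_{k<p} k^(-s)`.  Pairing `k` with `p-k` gives `2 H_{2m+3} ≡ -(2m+3) p H_{2m+4} (mod p²)`,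
so `2 S_m(p-1) ≡ -(2m+7) p³ H_{2m+4} (mod p⁴)`, and `H_{2m+4}` is `-1` or `0` modulo `p` as
`p - 1` divides `2m+4` or not.
-/

namespace Pool.Agent.Results.MP_a0b46e_nt.ExactExceptionalPrimes

open Finset

/-- the sum `S_m(n)` -/
def S (m n : ℕ) : ℚ :=
  ∑ k ∈ Icc 1 n, ((n.choose k : ℚ) ^ 2 * ((n + k).choose k : ℚ) ^ 2) / (k : ℚ) ^ (2 * m + 1)

/-- the numerator of `S_m(n)` in lowest terms -/
def u (m n : ℕ) : ℤ := (S m n).num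

open Q33.Harm

theorem num_iff {p : ℕ} [Fact p.Prime] {q : ℚ} {T : ℤ_[p]} (h : (q : ℚ_[p]) = (T : ℚ_[p]))
    (k : ℕ) : (p : ℤ) ^ k ∣ q.num ↔ (p : ℤ_[p]) ^ k ∣ T := by
  have hu : IsUnit (q.den : ℤ_[p]) := PadicInt.isUnit_den q (by rw [h]; exact T.2)
  have h1 : ((q.num : ℤ) : ℤ_[p]) = (q.den : ℤ_[p]) * T := by
    apply Subtype.ext
    rw [PadicInt.coe_mul, PadicInt.coe_intCast, PadicInt.coe_natCast, ← h]
    have h2 : ((q * q.den : ℚ) : ℚ_[p]) = ((q.num : ℚ) : ℚ_[p]) := by rw [Rat.mul_den_eq_num]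
    push_cast at h2
    rw [← h2, mul_comm]
  have h3 := PadicInt.pow_p_dvd_int_iff (p := p) k q.num
  rw [h1, hu.dvd_mul_left] at h3
  exact h3.symm

theorem coe_v {p : ℕ} [Fact p.Prime] {j : ℕ} (h : j ∈ Ico 1 p) :
    ((v p j : ℤ_[p]) : ℚ_[p]) = ((j : ℚ_[p]))⁻¹ := by
  have h1 := congrArg (fun x : ℤ_[p] => (x : ℚ_[p])) (mul_v_of_mem h)
  simp only [PadicInt.coe_mul, PadicInt.coe_natCast, PadicInt.coe_one] at h1
  exact eq_inv_of_mul_eq_one_right h1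

theorem coe_S (p : ℕ) [hp : Fact p.Prime] (m : ℕ) :
    ((S m (p - 1) : ℚ) : ℚ_[p]) = ((∑ k ∈ Ico 1 p,
      (((p - 1).choose k : ℕ) : ℤ_[p]) ^ 2 * (((p + k - 1).choose k : ℕ) : ℤ_[p]) ^ 2 *
        v p k ^ (2 * m + 1) : ℤ_[p]) : ℚ_[p]) := by
  have hp1 := hp.out.one_lt
  have hI : Icc 1 (p - 1) = Ico 1 p := by ext x; rw [mem_Icc, mem_Ico]; omega
  rw [S, hI, PadicInt.coe_sum]
  push_cast
  refine sum_congr rfl fun k hk => ?_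
  rw [coe_v hk]
  have : p - 1 + k = p + k - 1 := by omega
  rw [this, div_eq_mul_inv, inv_pow]

theorem main (p : ℕ) [hp : Fact p.Prime] (h2 : p ≠ 2) (m : ℕ) :
    (p : ℤ) ^ 4 ∣ u m (p - 1) ↔ (¬ (p - 1) ∣ 2 * m + 4 ∨ p ∣ 2 * m + 7) := by
  rw [u, num_iff (coe_S p m)]
  have hp2 : 2 < p := lt_of_le_of_ne hp.out.two_le (Ne.symm h2)
  have h2u : IsUnit ((2 : ℕ) : ℤ_[p]) := isUnit_nat (not_dvd_of_lt (by norm_num) hp2)
  set T := ∑ k ∈ Ico 1 p, (((p - 1).choose k : ℕ) : ℤ_[p]) ^ 2 *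
    (((p + k - 1).choose k : ℕ) : ℤ_[p]) ^ 2 * v p k ^ (2 * m + 1) with hT
  -- the sum modulo `p⁴`
  have e1 : (p : ℤ_[p]) ^ 4 ∣ T - (p : ℤ_[p]) ^ 2 * (V p (2 * m + 3) - 2 * p * V p (2 * m + 4)) := by
    have e2 : T - (p : ℤ_[p]) ^ 2 * (V p (2 * m + 3) - 2 * p * V p (2 * m + 4)) =
        ∑ k ∈ Ico 1 p, (p : ℤ_[p]) ^ 2 * (v p k ^ (2 * m + 3) *
          ((1 - p * v p k) ^ 2 * ((A p k * B p k) ^ 2 - 1) + p ^ 2 * v p k ^ 2)) := by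
      rw [hT, V, V, mul_sum, ← sum_sub_distrib, mul_sum, ← sum_sub_distrib]
      refine sum_congr rfl fun k hk => ?_
      have hk' := hk
      rw [mem_Ico] at hk'
      rw [choose_pred k hk'.2, choose_add k hk'.1 hk'.2, A_succ hk'.1]
      have hs : ((-1 : ℤ_[p]) ^ k) ^ 2 = 1 := by rw [← pow_mul, mul_comm, pow_mul]; simp
      linear_combination (A p k * (1 - p * v p k)) ^ 2 * (p * v p k * B p k) ^ 2 *
        v p k ^ (2 * m + 1) * hs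
    rw [e2]
    refine dvd_sum fun k _ => ?_
    obtain ⟨l, hl⟩ := AB_sq (p := p) k
    refine ⟨v p k ^ (2 * m + 3) * ((1 - p * v p k) ^ 2 * l + v p k ^ 2), ?_⟩
    rw [hl]; ring
  -- twice the bracket
  have e3 : (p : ℤ_[p]) ^ 2 ∣ 2 * (V p (2 * m + 3) - 2 * p * V p (2 * m + 4)) +
      p * (((2 * m + 7 : ℕ) : ℤ_[p]) * V p (2 * m + 4)) := by
    obtain ⟨l, hl⟩ := V_odd (p := p) (s := 2 * m + 3) ⟨m + 1, by ring⟩
    refine ⟨l, ?_⟩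
    rw [show 2 * m + 3 + 1 = 2 * m + 4 by ring] at hl
    push_cast at hl ⊢
    linear_combination hl
  have hp0 : (p : ℤ_[p]) ≠ 0 := by
    exact_mod_cast (Nat.cast_ne_zero (R := ℤ_[p])).mpr hp.out.ne_zero
  have e4 : (p : ℤ_[p]) ^ 4 ∣ T ↔
      (p : ℤ_[p]) ^ 2 ∣ V p (2 * m + 3) - 2 * p * V p (2 * m + 4) := by
    rw [dvd_iff_dvd_of_dvd_sub e1, show (p : ℤ_[p]) ^ 4 = (p : ℤ_[p]) ^ 2 * (p : ℤ_[p]) ^ 2 by ring]
    exact mul_dvd_mul_iff_left (pow_ne_zero 2 hp0)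
  have e5 : (p : ℤ_[p]) ^ 2 ∣ V p (2 * m + 3) - 2 * p * V p (2 * m + 4) ↔
      (p : ℤ_[p]) ^ 2 ∣ 2 * (V p (2 * m + 3) - 2 * p * V p (2 * m + 4)) := by
    have := (h2u.dvd_mul_left (a := (p : ℤ_[p]) ^ 2)
      (b := V p (2 * m + 3) - 2 * p * V p (2 * m + 4)))
    push_cast at this
    exact this.symm
  have e6 : (p : ℤ_[p]) ^ 2 ∣ 2 * (V p (2 * m + 3) - 2 * p * V p (2 * m + 4)) ↔
      (p : ℤ_[p]) ^ 2 ∣ p * (((2 * m + 7 : ℕ) : ℤ_[p]) * V p (2 * m + 4)) :=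
    ⟨fun h => (dvd_add_right h).mp e3, fun h => (dvd_add_left h).mp e3⟩
  have e7 : (p : ℤ_[p]) ^ 2 ∣ p * (((2 * m + 7 : ℕ) : ℤ_[p]) * V p (2 * m + 4)) ↔
      (p : ℤ_[p]) ∣ ((2 * m + 7 : ℕ) : ℤ_[p]) * V p (2 * m + 4) := by
    rw [pow_two]
    exact mul_dvd_mul_iff_left hp0
  have e8 : (p : ℤ_[p]) ∣ V p (2 * m + 4) ↔ ¬ (p - 1) ∣ 2 * m + 4 :=
    ⟨fun h hd => not_dvd_V hd h, fun h => dvd_V h⟩
  have e9 : (p : ℤ_[p]) ∣ ((2 * m + 7 : ℕ) : ℤ_[p]) ↔ p ∣ 2 * m + 7 := by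
    have := PadicInt.pow_p_dvd_int_iff (p := p) 1 ((2 * m + 7 : ℕ) : ℤ)
    rw [pow_one, pow_one, Int.cast_natCast, Int.natCast_dvd_natCast] at this
    exact this
  rw [e4, e5, e6, e7, PadicInt.prime_p.dvd_mul, e8, e9, or_comm]

theorem two (m : ℕ) : ¬ (2 : ℤ) ^ 4 ∣ u m (2 - 1) := by
  have : S m (2 - 1) = 4 := by
    rw [S]
    norm_num
  rw [u, this]
  norm_num

/-- For every `m` and every prime `p`: `p⁴` divides the numerator `u_m(p-1)` if and only if `p`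
is odd and (`p - 1` does not divide `2m + 4` or `p` divides `2m + 7`).  In particular for every
`m` there is a finite set of primes outside of which the congruence holds. -/
theorem result :
    (∀ m p : ℕ, p.Prime →
      ((p : ℤ) ^ 4 ∣ u m (p - 1) ↔ p ≠ 2 ∧ (¬ (p - 1) ∣ 2 * m + 4 ∨ p ∣ 2 * m + 7))) ∧
    (∀ m : ℕ, ∃ E : Finset ℕ, ∀ p : ℕ, p.Prime → p ∉ E → (p : ℤ) ^ 4 ∣ u m (p - 1)) := by
  have h1 : ∀ m p : ℕ, p.Prime →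
      ((p : ℤ) ^ 4 ∣ u m (p - 1) ↔ p ≠ 2 ∧ (¬ (p - 1) ∣ 2 * m + 4 ∨ p ∣ 2 * m + 7)) := by
    intro m p hp
    have : Fact p.Prime := ⟨hp⟩
    rcases eq_or_ne p 2 with h | h
    · subst h
      constructor
      · intro h; exact absurd h (two m)
      · intro h; exact absurd rfl h.1
    · rw [main p h m]
      exact ⟨fun h' => ⟨h, h'⟩, fun h' => h'.2⟩
  refine ⟨h1, fun m => ⟨range (2 * m + 6), fun p hp hE => ?_⟩⟩
  rw [mem_range, not_lt] at hE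
  rw [h1 m p hp]
  refine ⟨by omega, Or.inl fun hd => ?_⟩
  have := Nat.le_of_dvd (by omega) hd
  omega

end Pool.Agent.Results.MP_a0b46e_nt.ExactExceptionalPrimes
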